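import Mathlib
import Pool.Agent.H631R2.OmegaF

set_option autoImplicit false

/-!
# Adding `ℵ_ω` Cohen reals kills both partition relations

Here `2 ^< κ` is the weak power, the supremum of `2 ^ ρ` over `ρ < κ` (Mathlib: `Cardinal.powerlt`).

Add `ℵ_ω` Cohen reals to any model of ZFC. Cardinals are preserved, and with the ground model
cardinals `λ = 2 ^< ℵ_ω` and `2 ^ λ` one has `λ ↛ (ℵ_ω, 4)³` and `2 ^ λ ↛ (ℵ_ω, 5)⁴` in the
extension. If (H) holds in the ground model, then `λ` and `2 ^ λ` are the corresponding cardinals of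
the extension, and (H) holds there. So the two relations fail together in one model of (H).
-/

open Cardinal Set Pool.Agent.Helper292.SP Pool.Agent.H631R2

namespace Pool.Agent.Results.MP_3ae4a3_lc.BothFail

/-- The forcing `Cond (KK × ℕ)` of the finite partial functions from `ℵ_ω × ω` to `{0, 1}`, which
adds `ℵ_ω` Cohen reals, has the countable chain condition, and each of its conditions forces that
cardinals are preserved, that `2 ^< ℵ_ω` (as computed in the ground model) `↛ (ℵ_ω, 4)³`, and that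
`2 ^ (2 ^< ℵ_ω)` (as computed in the ground model) `↛ (ℵ_ω, 5)⁴`. If moreover (H) holds in the ground
model, then each condition forces that these are the cardinals `2 ^< ℵ_ω` and `2 ^ (2 ^< ℵ_ω)` of
the extension, and that (H) holds in the extension. -/
theorem result :
    CCC (Cond (KK × ℕ)) ∧
    (∀ p : Cond (KK × ℕ),
      (∀ X Y : Type, ℵ₀ ≤ #X → #X < #Y → p ∈ NoOnto (Cond (KK × ℕ)) X Y) ∧
      p ∈ NArrow (Cond (KK × ℕ)) LL KK 4 3 ∧
      p ∈ NArrow (Cond (KK × ℕ)) LA KK 5 4) ∧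
    (ℵ_ Ordinal.omega0 < (2 : Cardinal.{0}) ^< ℵ_ Ordinal.omega0 →
      (∀ n : ℕ, (2 : Cardinal.{0}) ^ ((2 : Cardinal.{0}) ^ ℵ_ (n : Ordinal.{0})) <
        2 ^ ((2 : Cardinal.{0}) ^< ℵ_ Ordinal.omega0)) →
      ∀ p : Cond (KK × ℕ),
        p ∈ IsSupPow (Cond (KK × ℕ)) NN LL ∧ p ∈ IsPow (Cond (KK × ℕ)) LL LA ∧
        p ∈ HypOne (Cond (KK × ℕ)) NN KK ∧ p ∈ HypTwo (Cond (KK × ℕ)) NN LL LA) := by
  have hP : CCC (Cond (KK × ℕ)) := ccc_cond _
  refine ⟨hP, fun p => ⟨fun X Y hX hXY => hP.noOnto hX hXY p, forced3_LL p, forced4_LA p⟩, ?_⟩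
  intro h1 h2 p
  obtain ⟨-, b, c, d, e, -, -⟩ := main h1 h2 p
  exact ⟨b, c, d, e⟩

end Pool.Agent.Results.MP_3ae4a3_lc.BothFail
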